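import Pool.Agent.Lib.MP_fd6009_an.Curve

/-!
# A curve with a half-open gap

`ce τ` is the curve `max (aa + bb τ) 0` for `τ ≤ 0` and `max (1 - τ/ℓ) 0 • aa` for `τ ≥ 0`, where
`ℓ` is the `ℓ²` norm of `aa`.  Its value is finitely supported for `τ < 0` and for `τ ≥ ℓ` and is
not summable for `0 ≤ τ < ℓ`.
-/

set_option autoImplicit false

open Filter Topology

namespace Pool.Agent.SumCE

lemma summable_aa_sq : Summable (fun m => (aa m) ^ 2) := by
  have h : Summable (fun n : ℕ => 1 / (n : ℝ) ^ 2) :=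
    Real.summable_one_div_nat_pow.2 (by norm_num)
  have h2 := (summable_nat_add_iff 1).2 h
  refine h2.congr fun m => ?_
  unfold aa
  push_cast
  rw [div_pow, one_pow]

/-- The `ℓ²` norm of `aa`. -/
noncomputable def ell : ℝ := Real.sqrt (∑' m, (aa m) ^ 2)

lemma tsum_aa_pos : 0 < ∑' m, (aa m) ^ 2 :=
  summable_aa_sq.tsum_pos (fun m => sq_nonneg _) 0 (by have := aa_pos 0; positivity)

lemma ell_pos : 0 < ell := Real.sqrt_pos.2 tsum_aa_pos

lemma ell_sq : ell ^ 2 = ∑' m, (aa m) ^ 2 := Real.sq_sqrt tsum_aa_pos.le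

lemma sum_aa_sq_le (F : Finset ℕ) : ∑ m ∈ F, (aa m) ^ 2 ≤ ell ^ 2 := by
  rw [ell_sq]
  exact summable_aa_sq.sum_le_tsum F fun m _ => sq_nonneg _

/-- The curve with a half-open gap. -/
noncomputable def ce (τ : ℝ) (m : ℕ) : ℝ :=
  max (aa m + bb m * min τ 0) 0 - aa m + max (1 - max τ 0 / ell) 0 * aa m

lemma ce_of_nonpos {τ : ℝ} (h : τ ≤ 0) (m : ℕ) : ce τ m = max (aa m + bb m * τ) 0 := by
  unfold ce
  rw [min_eq_left h, max_eq_right h]
  simp

lemma ce_of_nonneg {τ : ℝ} (h : 0 ≤ τ) (m : ℕ) : ce τ m = max (1 - τ / ell) 0 * aa m := by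
  unfold ce
  rw [min_eq_right h, max_eq_left h, mul_zero, add_zero, max_eq_left (aa_pos m).le]
  ring

lemma ce_of_mem {τ : ℝ} (h0 : 0 ≤ τ) (h1 : τ ≤ ell) (m : ℕ) : ce τ m = (1 - τ / ell) * aa m := by
  rw [ce_of_nonneg h0, max_eq_left]
  rw [sub_nonneg, div_le_one ell_pos]
  exact h1

lemma ce_of_ge {τ : ℝ} (h : ell ≤ τ) (m : ℕ) : ce τ m = 0 := by
  rw [ce_of_nonneg (ell_pos.le.trans h), max_eq_right, zero_mul]
  rw [sub_nonpos, one_le_div ell_pos]
  exact h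

lemma continuous_ce (m : ℕ) : Continuous (fun τ => ce τ m) := by
  unfold ce
  fun_prop

lemma ce_zero (m : ℕ) : ce 0 m = aa m := by
  rw [ce_of_nonpos le_rfl, mul_zero, add_zero, max_eq_left (aa_pos m).le]

/-- The contraction estimate on the negative side. -/
lemma ce_neg_sub {τ σ : ℝ} (hτ : τ ≤ 0) (hσ : σ ≤ 0) (F : Finset ℕ) :
    ∑ m ∈ F, (ce τ m - ce σ m) ^ 2 ≤ (τ - σ) ^ 2 := by
  have h1 : ∀ m ∈ F, (ce τ m - ce σ m) ^ 2 ≤ (bb m) ^ 2 * (τ - σ) ^ 2 := by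
    intro m _
    rw [ce_of_nonpos hτ, ce_of_nonpos hσ, ← mul_pow]
    refine sq_le_sq.2 (le_trans (abs_max_sub_max_le_abs _ _ _) ?_)
    have : aa m + bb m * τ - (aa m + bb m * σ) = bb m * (τ - σ) := by ring
    rw [this]
  refine (Finset.sum_le_sum h1).trans ?_
  rw [← Finset.sum_mul]
  have := mul_le_mul_of_nonneg_right (sum_bb_sq_le F) (sq_nonneg (τ - σ))
  linarith

/-- The contraction estimate on the positive side. -/
lemma ce_pos_sub {τ σ : ℝ} (hτ : 0 ≤ τ) (hσ : 0 ≤ σ) (F : Finset ℕ) :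
    ∑ m ∈ F, (ce τ m - ce σ m) ^ 2 ≤ (τ - σ) ^ 2 := by
  have h1 : ∀ m ∈ F, (ce τ m - ce σ m) ^ 2 ≤ ((τ - σ) / ell) ^ 2 * (aa m) ^ 2 := by
    intro m _
    rw [ce_of_nonneg hτ, ce_of_nonneg hσ, ← mul_pow, ← sub_mul]
    refine sq_le_sq.2 ?_
    rw [abs_mul, abs_mul]
    refine mul_le_mul_of_nonneg_right (le_trans (abs_max_sub_max_le_abs _ _ _) ?_) (abs_nonneg _)
    have : 1 - τ / ell - (1 - σ / ell) = -((τ - σ) / ell) := by ring
    rw [this, abs_neg]
  refine (Finset.sum_le_sum h1).trans ?_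
  rw [← Finset.mul_sum]
  have h2 := mul_le_mul_of_nonneg_left (sum_aa_sq_le F) (sq_nonneg ((τ - σ) / ell))
  refine h2.trans (le_of_eq ?_)
  have := ell_pos.ne'
  field_simp

/-- Minkowski type combination of two estimates with nonnegative bounds. -/
lemma sum_sq_add_le {F : Finset ℕ} {u v : ℕ → ℝ} {α β : ℝ} (hα : 0 ≤ α) (hβ : 0 ≤ β)
    (hu : ∑ m ∈ F, (u m) ^ 2 ≤ α ^ 2) (hv : ∑ m ∈ F, (v m) ^ 2 ≤ β ^ 2) :
    ∑ m ∈ F, (u m + v m) ^ 2 ≤ (α + β) ^ 2 := by
  have h1 : ∑ m ∈ F, (u m + v m) ^ 2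
      = ∑ m ∈ F, (u m) ^ 2 + 2 * ∑ m ∈ F, u m * v m + ∑ m ∈ F, (v m) ^ 2 := by
    rw [Finset.mul_sum, ← Finset.sum_add_distrib, ← Finset.sum_add_distrib]
    refine Finset.sum_congr rfl fun m _ => ?_
    ring
  have h2 : (∑ m ∈ F, u m * v m) ^ 2 ≤ (α * β) ^ 2 := by
    refine (Finset.sum_mul_sq_le_sq_mul_sq F u v).trans ?_
    rw [mul_pow]
    exact mul_le_mul hu hv (Finset.sum_nonneg fun _ _ => sq_nonneg _) (sq_nonneg _)
  have h3 : ∑ m ∈ F, u m * v m ≤ α * β := le_of_sq_le_sq h2 (mul_nonneg hα hβ)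
  rw [h1]
  nlinarith
where
  le_of_sq_le_sq {a b : ℝ} (h : a ^ 2 ≤ b ^ 2) (hb : 0 ≤ b) : a ≤ b :=
    le_trans (le_abs_self a) (abs_le_of_sq_le_sq h hb)

theorem contr_ce : Contr ce := by
  intro τ σ F
  rcases le_total τ 0 with hτ | hτ <;> rcases le_total σ 0 with hσ | hσ
  · exact ce_neg_sub hτ hσ F
  · have h1 := ce_neg_sub hτ le_rfl F
    have h2 := ce_pos_sub le_rfl hσ F
    have h3 := sum_sq_add_le (F := F) (u := fun m => ce τ m - ce 0 m)
      (v := fun m => ce 0 m - ce σ m) (α := -τ) (β := σ) (by linarith) hσ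
      (by simpa using h1) (by simpa using h2)
    have h4 : ∑ m ∈ F, (ce τ m - ce σ m) ^ 2
        = ∑ m ∈ F, (ce τ m - ce 0 m + (ce 0 m - ce σ m)) ^ 2 :=
      Finset.sum_congr rfl fun m _ => by ring
    rw [h4]
    refine h3.trans (le_of_eq ?_)
    ring
  · have h1 := ce_pos_sub hτ le_rfl F
    have h2 := ce_neg_sub le_rfl hσ F
    have h3 := sum_sq_add_le (F := F) (u := fun m => ce τ m - ce 0 m)
      (v := fun m => ce 0 m - ce σ m) (α := τ) (β := -σ) hτ (by linarith)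
      (by simpa using h1) (by simpa using h2)
    have h4 : ∑ m ∈ F, (ce τ m - ce σ m) ^ 2
        = ∑ m ∈ F, (ce τ m - ce 0 m + (ce 0 m - ce σ m)) ^ 2 :=
      Finset.sum_congr rfl fun m _ => by ring
    rw [h4]
    refine h3.trans (le_of_eq ?_)
    ring
  · exact ce_pos_sub hτ hσ F

lemma finSupp_ce_neg {τ : ℝ} (h : τ < 0) : FinSupp ce τ := by
  have h1 := eventually_aa_lt (r := -τ) (by linarith)
  rw [eventually_atTop] at h1
  obtain ⟨N, hN⟩ := h1
  refine ⟨Finset.range N, fun m hm => ?_⟩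
  rw [Finset.mem_range, not_lt] at hm
  rw [ce_of_nonpos h.le, max_eq_right]
  have := hN m hm
  linarith

lemma finSupp_ce_ge {τ : ℝ} (h : ell ≤ τ) : FinSupp ce τ := ⟨∅, fun m _ => ce_of_ge h m⟩

lemma not_summable_ce {τ : ℝ} (h0 : 0 ≤ τ) (h1 : τ < ell) : ¬ Summable (fun m => |ce τ m|) := by
  intro hs
  have hpos : 0 < 1 - τ / ell := by
    rw [sub_pos, div_lt_one ell_pos]
    exact h1
  apply not_summable_aa
  have h2 := hs.mul_left (1 - τ / ell)⁻¹
  refine h2.congr fun m => ?_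
  rw [ce_of_mem h0 h1.le, abs_of_pos (mul_pos hpos (aa_pos m)), ← mul_assoc,
    inv_mul_cancel₀ hpos.ne', one_mul]

/-- The inequality over negative parameters extends to the parameter zero. -/
lemma ineq_at_zero {τ₀ t₀ : ℝ} {p : ℕ → ℝ}
    (h : ∀ τ, τ < 0 → ∀ F : Finset ℕ,
      ∑ m ∈ F, (p m - ce τ m) ^ 2 ≤ (t₀ - τ) * (τ₀ - τ)) (F : Finset ℕ) :
    ∑ m ∈ F, (p m - aa m) ^ 2 ≤ t₀ * τ₀ := by
  have hcont1 : Continuous (fun τ => ∑ m ∈ F, (p m - ce τ m) ^ 2) :=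
    continuous_finsetSum _ fun m _ => (continuous_const.sub (continuous_ce m)).pow 2
  have hcont2 : Continuous (fun τ : ℝ => (t₀ - τ) * (τ₀ - τ)) := by fun_prop
  have h1 : Tendsto (fun τ => ∑ m ∈ F, (p m - ce τ m) ^ 2) (𝓝[<] 0)
      (𝓝 (∑ m ∈ F, (p m - ce 0 m) ^ 2)) := hcont1.continuousAt.mono_left nhdsWithin_le_nhds
  have h2 : Tendsto (fun τ : ℝ => (t₀ - τ) * (τ₀ - τ)) (𝓝[<] 0)
      (𝓝 ((t₀ - 0) * (τ₀ - 0))) := hcont2.continuousAt.mono_left nhdsWithin_le_nhds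
  have h3 := le_of_tendsto_of_tendsto h1 h2 (by
    filter_upwards [self_mem_nhdsWithin] with τ hτ
    exact h τ hτ F)
  simpa [ce_zero] using h3

/-- The two ends of the gap force the parameters to agree and the value to lie on the segment. -/
lemma gap_rigid {τ₀ t₀ : ℝ} {p : ℕ → ℝ} (h0 : 0 ≤ t₀ + τ₀) (h1 : t₀ + τ₀ ≤ 2 * ell)
    (hA : ∀ F : Finset ℕ, ∑ m ∈ F, (p m - aa m) ^ 2 ≤ t₀ * τ₀)
    (hB : ∀ F : Finset ℕ, ∑ m ∈ F, (p m) ^ 2 ≤ (t₀ - ell) * (τ₀ - ell)) :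
    t₀ = τ₀ ∧ ∀ m, p m = (1 - t₀ / ell) * aa m := by
  have hl := ell_pos
  set lam : ℝ := (t₀ + τ₀) / (2 * ell) with hlam
  have hlam0 : 0 ≤ lam := by positivity
  have hlam1 : lam ≤ 1 := by
    rw [hlam, div_le_one (by positivity)]
    exact h1
  -- the convexity identity
  have hid : ∀ F : Finset ℕ, ∑ m ∈ F, (p m - (1 - lam) * aa m) ^ 2
      = (1 - lam) * ∑ m ∈ F, (p m - aa m) ^ 2 + lam * ∑ m ∈ F, (p m) ^ 2
        - lam * (1 - lam) * ∑ m ∈ F, (aa m) ^ 2 := by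
    intro F
    rw [Finset.mul_sum, Finset.mul_sum, Finset.mul_sum, ← Finset.sum_add_distrib,
      ← Finset.sum_sub_distrib]
    refine Finset.sum_congr rfl fun m _ => ?_
    ring
  have hval : (1 - lam) * (t₀ * τ₀) + lam * ((t₀ - ell) * (τ₀ - ell)) - lam * (1 - lam) * ell ^ 2
      = -((t₀ - τ₀) / 2) ^ 2 := by
    rw [hlam]
    field_simp
    ring
  have hF : ∀ F : Finset ℕ, ∑ m ∈ F, (p m - (1 - lam) * aa m) ^ 2
      ≤ -((t₀ - τ₀) / 2) ^ 2 + lam * (1 - lam) * (ell ^ 2 - ∑ m ∈ F, (aa m) ^ 2) := by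
    intro F
    rw [hid F, ← hval]
    have e1 := mul_le_mul_of_nonneg_left (hA F) (sub_nonneg.2 hlam1)
    have e2 := mul_le_mul_of_nonneg_left (hB F) hlam0
    nlinarith [e1, e2]
  have hlim : Tendsto (fun F : Finset ℕ => -((t₀ - τ₀) / 2) ^ 2
      + lam * (1 - lam) * (ell ^ 2 - ∑ m ∈ F, (aa m) ^ 2)) atTop
      (𝓝 (-((t₀ - τ₀) / 2) ^ 2 + lam * (1 - lam) * (ell ^ 2 - ell ^ 2))) := by
    have h2 : Tendsto (fun F : Finset ℕ => ∑ m ∈ F, (aa m) ^ 2) atTop (𝓝 (ell ^ 2)) := by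
      rw [ell_sq]
      exact summable_aa_sq.hasSum
    exact (((h2.const_sub _).const_mul _).const_add _)
  rw [sub_self, mul_zero, add_zero] at hlim
  have hnn : 0 ≤ -((t₀ - τ₀) / 2) ^ 2 :=
    ge_of_tendsto' hlim fun F => (Finset.sum_nonneg fun m _ => sq_nonneg _).trans (hF F)
  have heq : t₀ = τ₀ := by nlinarith [sq_nonneg ((t₀ - τ₀) / 2)]
  have hlam2 : lam = t₀ / ell := by
    rw [hlam, ← heq]
    field_simp
    ring
  refine ⟨heq, fun m => ?_⟩
  have h4 : (p m - (1 - lam) * aa m) ^ 2 ≤ -((t₀ - τ₀) / 2) ^ 2 := by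
    refine ge_of_tendsto hlim ?_
    filter_upwards [eventually_ge_atTop {m}] with F hFm
    refine le_trans ?_ (hF F)
    exact Finset.single_le_sum (f := fun m => (p m - (1 - lam) * aa m) ^ 2)
      (fun _ _ => sq_nonneg _) (hFm (Finset.mem_singleton_self m))
  have h5 : (p m - (1 - lam) * aa m) ^ 2 = 0 := by
    have := sq_nonneg (p m - (1 - lam) * aa m)
    have h6 := sq_nonneg ((t₀ - τ₀) / 2)
    linarith
  have h6 := pow_eq_zero_iff (two_ne_zero) |>.1 h5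
  rw [← hlam2]
  linarith

/-- Rigidity over the parameters `τ < 0` and `τ = ℓ` for base points `τ₀ ≤ ℓ`. -/
lemma rigid_below {τ₀ t₀ : ℝ} (hτ₀ : τ₀ ≤ ell) {p : ℕ → ℝ}
    (h : ∀ τ, τ < 0 → ∀ F : Finset ℕ, ∑ m ∈ F, (p m - ce τ m) ^ 2 ≤ (t₀ - τ) * (τ₀ - τ))
    (hB : ∀ F : Finset ℕ, ∑ m ∈ F, (p m) ^ 2 ≤ (t₀ - ell) * (τ₀ - ell)) :
    (τ₀ = ell ∨ t₀ = τ₀) ∧ ∀ m, p m = ce τ₀ m := by
  have hA := ineq_at_zero h
  rcases eq_or_lt_of_le hτ₀ with heq | hlt
  · refine ⟨Or.inl heq, fun m => ?_⟩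
    have := hB {m}
    rw [heq] at this
    simp only [Finset.sum_singleton, sub_self, mul_zero] at this
    have h2 : (p m) ^ 2 = 0 := le_antisymm this (sq_nonneg _)
    rw [ce_of_ge heq.ge]
    exact pow_eq_zero_iff (two_ne_zero) |>.1 h2
  · have ht₀ : t₀ ≤ ell := by
      have := hB ∅
      simp only [Finset.sum_empty] at this
      by_contra hcon
      push Not at hcon
      nlinarith [mul_pos (sub_pos.2 hcon) (sub_pos.2 hlt)]
    -- either both are equal and negative, or both are nonnegative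
    by_cases hneg : t₀ = τ₀ ∧ τ₀ < 0
    · obtain ⟨h1, h2⟩ := hneg
      refine ⟨Or.inr h1, fun m => ?_⟩
      have := h τ₀ h2 {m}
      simp only [Finset.sum_singleton, sub_self, mul_zero] at this
      have h3 : (p m - ce τ₀ m) ^ 2 = 0 := le_antisymm this (sq_nonneg _)
      have h4 := pow_eq_zero_iff (two_ne_zero) |>.1 h3
      linarith
    · have hnn : 0 ≤ t₀ ∧ 0 ≤ τ₀ := by
        by_contra hcon
        have hmin : min t₀ τ₀ < 0 := by
          by_contra h5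
          push Not at h5
          exact hcon ⟨h5.trans (min_le_left _ _), h5.trans (min_le_right _ _)⟩
        rcases lt_trichotomy t₀ τ₀ with h6 | h6 | h6
        · rw [min_eq_left h6.le] at hmin
          obtain ⟨τ, h7, h8⟩ := exists_between (lt_min h6 hmin)
          have h9 := h τ (h8.trans_le (min_le_right _ _)) ∅
          simp only [Finset.sum_empty] at h9
          have h10 := h8.trans_le (min_le_left _ _)
          nlinarith [mul_pos (sub_pos.2 h7) (sub_pos.2 h10)]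
        · rw [h6, min_self] at hmin
          exact hneg ⟨h6, hmin⟩
        · rw [min_eq_right (le_of_lt h6)] at hmin
          obtain ⟨τ, h7, h8⟩ := exists_between (lt_min h6 hmin)
          have h9 := h τ (h8.trans_le (min_le_right _ _)) ∅
          simp only [Finset.sum_empty] at h9
          have h10 := h8.trans_le (min_le_left _ _)
          nlinarith [mul_pos (sub_pos.2 h7) (sub_pos.2 h10)]
      obtain ⟨h11, h12⟩ := gap_rigid (by linarith [hnn.1, hnn.2]) (by linarith) hA hB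
      refine ⟨Or.inr h11, fun m => ?_⟩
      rw [h12 m, h11, ce_of_mem hnn.2 hτ₀]

theorem rigid_ce : Rigid ce := by
  intro τ₀ t₀ p _ h
  have hneg : ∀ τ, τ < 0 → ∀ F : Finset ℕ,
      ∑ m ∈ F, (p m - ce τ m) ^ 2 ≤ (t₀ - τ) * (τ₀ - τ) := fun τ hτ F => h τ (finSupp_ce_neg hτ) F
  have hpos : ∀ τ, ell ≤ τ → ∀ F : Finset ℕ,
      ∑ m ∈ F, (p m) ^ 2 ≤ (t₀ - τ) * (τ₀ - τ) := by
    intro τ hτ F
    have := h τ (finSupp_ce_ge hτ) F
    simpa [ce_of_ge hτ] using this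
  rcases le_or_gt τ₀ ell with hle | hgt
  · rcases le_or_gt t₀ ell with hle' | hgt'
    · obtain ⟨h1, h2⟩ := rigid_below hle hneg (hpos ell le_rfl)
      refine ⟨?_, h2⟩
      rcases h1 with h1 | h1
      · -- `τ₀ = ell`: use the symmetric statement
        obtain ⟨h3, _⟩ := rigid_below (τ₀ := t₀) (t₀ := τ₀) hle'
          (fun τ hτ F => by rw [mul_comm]; exact hneg τ hτ F)
          (fun F => by rw [mul_comm]; exact hpos ell le_rfl F)
        rcases h3 with h3 | h3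
        · rw [h3, h1]
        · exact h3.symm
      · exact h1
    · exfalso
      -- `τ₀ ≤ ell < t₀`
      obtain ⟨τ, h1, h2⟩ := exists_between hgt'
      have h3 := hpos τ h1.le ∅
      simp only [Finset.sum_empty] at h3
      have h4 : τ₀ < τ := lt_of_le_of_lt hle h1
      nlinarith [mul_pos (sub_pos.2 h2) (sub_pos.2 h4)]
  · rcases le_or_gt t₀ ell with hle' | hgt'
    · exfalso
      obtain ⟨τ, h1, h2⟩ := exists_between hgt
      have h3 := hpos τ h1.le ∅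
      simp only [Finset.sum_empty] at h3
      have h4 : t₀ < τ := lt_of_le_of_lt hle' h1
      nlinarith [mul_pos (sub_pos.2 h2) (sub_pos.2 h4)]
    · -- both above `ell`
      have heq : t₀ = τ₀ := by
        by_contra hne
        rcases lt_or_gt_of_ne hne with h5 | h5
        · obtain ⟨τ, h1, h2⟩ := exists_between h5
          have h3 := hpos τ (hgt'.trans h1).le ∅
          simp only [Finset.sum_empty] at h3
          nlinarith [mul_pos (sub_pos.2 h1) (sub_pos.2 h2)]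
        · obtain ⟨τ, h1, h2⟩ := exists_between h5
          have h3 := hpos τ (hgt.trans h1).le ∅
          simp only [Finset.sum_empty] at h3
          nlinarith [mul_pos (sub_pos.2 h1) (sub_pos.2 h2)]
      refine ⟨heq, fun m => ?_⟩
      have h6 := hpos τ₀ hgt.le {m}
      simp only [Finset.sum_singleton, sub_self, mul_zero] at h6
      rw [ce_of_ge hgt.le]
      exact pow_eq_zero_iff (two_ne_zero) |>.1 (le_antisymm h6 (sq_nonneg _))

end Pool.Agent.SumCE
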