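import Pool.Agent.Lib.MP_ddf116_an.Curve2

/-!
# Location by an open half-space and by its closure
-/

set_option autoImplicit false

open Filter Topology

namespace Pool.Agent.SumCE

/-- A pair monotonically related to the part of `Op w` over one parameter has its first part in
`W`. -/
lemma isW_of_related_at {w : ℝ → ℕ → ℝ} {τ : ℝ} (hτ : FinSupp w τ) {x : E1} {a : E1 →L[ℝ] ℝ}
    (h : ∀ (y : E1) (b : E1 →L[ℝ] ℝ), y.2 = τ → b ∈ Op w y → 0 ≤ (a - b) (x - y)) :
    IsW x.1 (fs a) := by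
  obtain ⟨s, hs⟩ := hτ
  have key : IsW (x.1 - by0 (w τ) s) (fs a - ba0 (w τ) s) := by
    rw [isW_iff]
    intro m k
    refine slope_zero (A := (fs a - ba0 (w τ) s) (x.1 - by0 (w τ) s) + (a (0, 1) - τ) * (x.2 - τ))
      fun t => ?_
    have hmem : mk (ba0 (w τ) s + (-t) • vs m k) τ ∈ Op w (by0 (w τ) s + (-t) • vv m k, τ) :=
      mem_Op_of hs ((isW_vv m k).smul (-t)) fun m' => by rw [bv_smul, bv_vv, mul_zero]
    have h1 := h _ _ rfl hmem
    rw [pairing_eq] at h1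
    simp only [fs_mk, mk_zero_one] at h1
    have h2 : (fs a - (ba0 (w τ) s + (-t) • vs m k)) (x.1 - (by0 (w τ) s + (-t) • vv m k))
        = (fs a - ba0 (w τ) s) (x.1 - by0 (w τ) s)
          + t * ((fs a - ba0 (w τ) s) (vv m k) + vs m k (x.1 - by0 (w τ) s)) := by
      have h3 := vs_vv m k
      simp only [sub_apply, add_apply, smul_apply, map_sub, map_add, map_smul, smul_eq_mul, h3]
      ring
    rw [h2] at h1
    linarith
  have h4 := key.add (isW_base (w τ) s)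
  have h5 : fs a - ba0 (w τ) s + ba0 (w τ) s = fs a := by ext y; simp
  rw [sub_add_cancel, h5] at h4
  exact h4

/-- The inequality satisfied by the boundary values of a related pair. -/
lemma bv_of_related_at {w : ℝ → ℕ → ℝ} {τ : ℝ} (hτ : FinSupp w τ) {x : E1} {a : E1 →L[ℝ] ℝ}
    (hW : IsW x.1 (fs a))
    (h : ∀ (y : E1) (b : E1 →L[ℝ] ℝ), y.2 = τ → b ∈ Op w y → 0 ≤ (a - b) (x - y))
    (F : Finset ℕ) :
    ∑ m ∈ F, (bv x.1 (fs a) m - w τ m) ^ 2 ≤ (a (0, 1) - τ) * (x.2 - τ) := by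
  obtain ⟨s, hs⟩ := hτ
  have h1 := h _ _ rfl (mem_Op_base hs)
  rw [pairing_eq] at h1
  simp only [fs_mk, mk_zero_one] at h1
  have h2 := (hW.sub (isW_base (w τ) s)).sum_sq_le F
  simp only [bv_sub, bv_base (w τ) s hs] at h2
  linarith

/-- The open half-space below the upper end of the gap. -/
def VV : Set E1 := {x | x.2 < ell}

lemma isOpen_VV : IsOpen VV := isOpen_lt continuous_snd continuous_const

lemma convex_VV : Convex ℝ VV := by
  have h := (convex_Iio (𝕜 := ℝ) ell).linear_preimage (LinearMap.snd ℝ E0 ℝ)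
  exact h

lemma closure_VV : closure VV = {x : E1 | x.2 ≤ ell} := by
  apply Set.Subset.antisymm
  · have hc : IsClosed {x : E1 | x.2 ≤ ell} := isClosed_le continuous_snd continuous_const
    refine closure_minimal (fun x hx => ?_) hc
    have hx' : x.2 < ell := hx
    exact hx'.le
  · intro x hx
    rw [Set.mem_ofPred_eq] at hx
    have h1 : x ∈ closure (Set.univ ×ˢ Set.Iio ell : Set E1) := by
      rw [closure_prod_eq, closure_univ, closure_Iio]
      exact ⟨trivial, hx⟩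
    have h2 : (Set.univ ×ˢ Set.Iio ell : Set E1) = VV := by
      ext y
      simp [VV]
    rwa [h2] at h1

theorem locates_closure {x : E1} (hx : x.2 ≤ ell) {a : E1 →L[ℝ] ℝ}
    (h : ∀ (y : E1), y.2 ≤ ell → ∀ b ∈ Op ce y, 0 ≤ (a - b) (x - y)) : (Op ce x).Nonempty := by
  have hat : ∀ τ, τ ≤ ell → ∀ (y : E1) (b : E1 →L[ℝ] ℝ), y.2 = τ → b ∈ Op ce y →
      0 ≤ (a - b) (x - y) := fun τ hτ y b hy hb => h y (hy.le.trans hτ) b hb
  have hW := isW_of_related_at (finSupp_ce_ge le_rfl) (hat ell le_rfl)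
  obtain ⟨h1, h2⟩ := rigid_below (τ₀ := x.2) (t₀ := a (0, 1)) (p := bv x.1 (fs a)) hx
    (fun τ hτ F => bv_of_related_at (finSupp_ce_neg hτ) hW
      (hat τ (hτ.le.trans ell_pos.le)) F)
    (fun F => by
      have := bv_of_related_at (finSupp_ce_ge le_rfl) hW (hat ell le_rfl) F
      simpa [ce_of_ge le_rfl] using this)
  rcases h1 with h1 | h1
  · refine ⟨mk (fs a) ell, ?_⟩
    refine ⟨by simp [h1], by simpa using hW, fun m => ?_⟩
    rw [fs_mk]
    exact h2 m
  · exact ⟨a, h1, hW, h2⟩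

lemma dom_gap {x : E1} {a : E1 →L[ℝ] ℝ} (h : a ∈ Op ce x) : x.2 < 0 ∨ ell ≤ x.2 := by
  by_contra hcon
  push Not at hcon
  obtain ⟨_, h2, h3⟩ := h
  refine not_summable_ce hcon.1 hcon.2 ?_
  have := h2.summable_abs_bv
  exact this.congr fun m => by rw [h3 m]

theorem not_locates_VV : ∃ x ∈ VV, ∃ a : E1 →L[ℝ] ℝ,
    (∀ y ∈ VV, ∀ b ∈ Op ce y, 0 ≤ (a - b) (x - y)) ∧ ¬ (Op ce x).Nonempty := by
  have hl := ell_pos
  obtain ⟨s, hs⟩ := finSupp_ce_neg (τ := -1) (by norm_num)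
  refine ⟨(by0 (ce (-1)) s, ell / 2), ?_, mk (ba0 (ce (-1)) s) (2 / ell), ?_, ?_⟩
  · simp only [VV, Set.mem_ofPred_eq]
    linarith
  · intro y hy b hb
    have hyneg : y.2 < 0 := by
      rcases dom_gap hb with h | h
      · exact h
      · exact absurd hy (not_lt.2 h)
    obtain ⟨hb1, hb2, hb3⟩ := hb
    rw [pairing_eq, fs_mk, mk_zero_one, hb1]
    have h4 : -((ba0 (ce (-1)) s - fs b) (by0 (ce (-1)) s - y.1)) ≤ (-1 - y.2) ^ 2 := by
      refine hasSum_le_of_sum_le ((isW_base (ce (-1)) s).sub hb2).hasSum_sq fun F => ?_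
      simp only [bv_sub, bv_base _ s hs, hb3]
      exact contr_ce (-1) y.2 F
    simp only
    have h5 : (2 / ell) * (ell / 2) = 1 := by
      field_simp
    have h6 : 2 / ell + ell / 2 ≥ 2 := by
      have h7 : 2 / ell + ell / 2 - 2 = (ell - 2) ^ 2 / (2 * ell) := by
        field_simp
        ring
      have h8 : 0 ≤ (ell - 2) ^ 2 / (2 * ell) := by positivity
      linarith
    have h9 : (2 / ell - y.2) * (ell / 2 - y.2) = 1 - y.2 * (2 / ell + ell / 2) + y.2 ^ 2 := by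
      have : (2 / ell - y.2) * (ell / 2 - y.2)
          = (2 / ell) * (ell / 2) - y.2 * (2 / ell + ell / 2) + y.2 ^ 2 := by ring
      rw [this, h5]
    rw [h9]
    nlinarith [mul_nonneg (neg_nonneg.2 hyneg.le) (sub_nonneg.2 h6)]
  · rintro ⟨b, hb⟩
    rcases dom_gap hb with h | h
    · simp only at h
      linarith
    · simp only at h
      linarith

lemma meets_VV : ∃ x ∈ VV, (Op ce x).Nonempty := by
  obtain ⟨s, hs⟩ := finSupp_ce_neg (τ := -1) (by norm_num)
  refine ⟨(by0 (ce (-1)) s, -1), ?_, _, mem_Op_base hs⟩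
  simp only [VV, Set.mem_ofPred_eq]
  linarith [ell_pos]

theorem Op_ce_maximal (x : E1) (a : E1 →L[ℝ] ℝ)
    (h : ∀ (y : E1) (b : E1 →L[ℝ] ℝ), b ∈ Op ce y → 0 ≤ (a - b) (x - y)) : a ∈ Op ce x :=
  Op_maximal rigid_ce ⟨ell, finSupp_ce_ge le_rfl⟩ x a h

end Pool.Agent.SumCE
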